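import Pool.Agent.Lib.MP_bc8021_gt.Power

open Pool.Agent.Lib.MP_bc8021_gt in
/-- For an index type ι the following are equivalent: ι is finite; every subspace of every product
over ι of T1 spaces with bases of point-finite rank is metacompact; the power over ι of every T3
space with a base of rank at most one is countably metacompact. -/
theorem Pool.Agent.Results.MP_bc8021_gt.FiniteProductivity.result.{u, v} (ι : Type v) :
    List.TFAE
      [Finite ι,
       ∀ (X : ι → Type u) [∀ i, TopologicalSpace (X i)] [∀ i, T1Space (X i)],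
        (∀ i, ∃ B : Set (Set (X i)),
          TopologicalSpace.IsTopologicalBasis B ∧ PointFiniteRank B) →
        ∀ S : Set (∀ i, X i), Metacompact S,
       ∀ (Y : Type u) [TopologicalSpace Y] [T3Space Y],
        (∃ B : Set (Set Y), TopologicalSpace.IsTopologicalBasis B ∧ ∀ y, RankLEAt B 1 y) →
        CountablyMetacompact (ι → Y)] := by
  tfae_have 1 → 2 := fun _ X _ _ h S => metacompact_subspace_pi X h S
  tfae_have 2 → 3 := by
    rintro h Y _ _ ⟨B, hB, hr⟩ 𝒰 - hU hc
    exact metacompact_of_univ (h (fun _ => Y) (fun _ => ⟨B, hB, fun y => ⟨1, hr y⟩⟩) Set.univ)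
      𝒰 hU hc
  tfae_have 3 → 1 := by
    intro h
    by_contra hι
    have : Infinite ι := not_finite_iff_infinite.1 hι
    exact not_countablyMetacompact_pow ι (h ML.{u} ⟨_, ML.basis, ML.rank⟩)
  tfae_finish
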