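import Pool.Agent.Lib.MP_bc8021_gt.Gen

open Pool.Agent.Lib.MP_bc8021_gt in
/-- A finite product of arbitrary topological spaces, each with a base of point-finite rank, is
metacompact if and only if the closure of every coordinate of every point is compact. For T1
(or R0) factors the right side always holds, so the product is metacompact. -/
theorem Pool.Agent.Results.MP_bc8021_gt.ProductCriterion.result
    {ι : Type*} [Finite ι] (X : ι → Type*) [∀ i, TopologicalSpace (X i)]
    (h : ∀ i, ∃ B : Set (Set (X i)),
      TopologicalSpace.IsTopologicalBasis B ∧ PointFiniteRank B) :
    Metacompact (∀ i, X i) ↔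
      ∀ (x : ∀ i, X i) (i : ι), IsCompact (closure ({x i} : Set (X i))) :=
  metacompact_pi_iff X h
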